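import Pool.Agent.Q168.CA.End

/-!
# Reversible number-conserving three-state automata with the von Neumann neighbourhood are trivial

The definitions are in `Pool.Agent.Q168.CA.Defs`: `Nb d` (the `2d + 1` positions of the von Neumann
neighbourhood: `none` is the cell itself, `some (i, true)` and `some (i, false)` are `e_i` and `-e_i`),
`off` (the corresponding vector of `ℤ^d`), `glob f` (the global map of the cellular automaton with local
rule `f : S^N → S`, `S = Fin 3 = {0, 1, 2}`), `NumberConserving f` (for every configuration which is periodic
along each coordinate direction the sum of the states over one period is the same for `x` and `F(x)`).

Proof.  Number conservation is tested on the torus `(ℤ/5)^d`.  As two different translates of the von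
Neumann neighbourhood have at most two common cells, emptying one cell of a pattern changes the value of the
local rule in a way which only depends on the patterns with at most two nonzero cells
(`local_identity`).  The restriction to the configurations which depend on one coordinate is a reversible
number-conserving one-dimensional automaton of radius one; such an automaton is determined by nine values and
a kernel computation over the 6561 candidates (144 of them number-conserving, 141 of these not injective on
the configurations of period four) shows that it is the identity or a shift.  This, the identities for pairs
and the nonnegativity of the states determine the values of the local rule at all patterns with at most two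
nonzero cells, hence the local rule.
-/

set_option autoImplicit false

namespace Pool.Agent.Results.MP_944d6d_mp.OnlyShifts

open Pool.Agent.Q168.CA

/-- For every dimension `d`, every reversible number-conserving cellular automaton on `ℤ^d` with state set
`{0, 1, 2}` and the von Neumann neighbourhood is the identity or one of the shifts
`F(x)_v = x_{v + u}`, `u ∈ {±e_1, …, ±e_d}`. -/
theorem result (d : ℕ) (f : (Nb d → Fin 3) → Fin 3) (hcons : NumberConserving f)
    (hrev : Function.Bijective (glob f)) :
    (∀ x, glob f x = x) ∨ ∃ u : Fin d × Bool, ∀ x v, glob f x v = x (v + off (some u)) := by
  obtain ⟨w, hw⟩ := projection f (NCT_of_NC f hcons) hrev.1
  rcases w with _ | u
  · left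
    intro x
    funext v
    show f (fun u => x (v + off u)) = x v
    rw [hw]
    simp [off]
  · right
    refine ⟨u, fun x v => ?_⟩
    show f (fun u => x (v + off u)) = _
    rw [hw]

end Pool.Agent.Results.MP_944d6d_mp.OnlyShifts
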